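import Pool.Agent.Helper16.Pin.RankD
import Pool.Agent.Helper36.Pin.Defs3

/-!
# Module QC: crossing a separator with at most two vertices
-/

namespace Pool.Agent.Helper36.Pin

open Finset Module

variable {V : Type} [Fintype V] [DecidableEq V]

theorem crossing_of {G : SimpleGraph V} {X S : Finset V} (h4 : 4 ≤ X.card)
    (hred : ∀ e : Sym2 V, rk ((core G ∩ X.sym2).erase e) + 3 = 2 * X.card)
    (hT : (nbr G S).card ≤ 2) (hXS : (X ∩ S).Nonempty) (hc : ¬ X ⊆ S ∪ nbr G S) :
    nbr G S ⊆ X ∧ (nbr G S).card = 2 ∧ 2 ≤ (X ∩ S).card ∧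
      ∀ a b, nbr G S = {a, b} → ∀ e, 2 * (X ∩ S).card + 1 ≤
        rk (insert s(a, b) ((core G ∩ X.sym2 ∩ inc G S).erase e)) := by
  classical
  set T := nbr G S with hTdef
  set D := core G ∩ X.sym2 with hD
  set DS := D ∩ inc G S with hDS
  set DO := D \ inc G S with hDO
  have hTS : Disjoint S T := by
    rw [Finset.disjoint_left]
    intro v hv hvT
    exact (mem_nbr.1 hvT).1 hv
  have hcoreE : core G ⊆ edges G := by
    intro e he
    exact (mem_sdiff.1 he).1
  -- cardinalities
  have hs1 : 1 ≤ (X ∩ S).card := card_pos.2 hXS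
  have ho1 : 1 ≤ (X \ (S ∪ T)).card := by
    rw [Nat.one_le_iff_ne_zero, Ne, card_eq_zero, sdiff_eq_empty_iff_subset]
    exact hc
  have hst : (X ∩ (S ∪ T)).card = (X ∩ S).card + (X ∩ T).card := by
    rw [inter_union_distrib_left, card_union_of_disjoint]
    exact Finset.disjoint_of_subset_left inter_subset_right
      (Finset.disjoint_of_subset_right inter_subset_right hTS)
  have htot : X.card = (X ∩ S).card + (X ∩ T).card + (X \ (S ∪ T)).card := by
    have := card_inter_add_card_sdiff X (S ∪ T)
    omega
  have hto : (X \ S).card = (X ∩ T).card + (X \ (S ∪ T)).card := by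
    have := card_inter_add_card_sdiff X S
    omega
  -- position of the edges
  have hDSsub : DS ⊆ (X ∩ (S ∪ T)).sym2 := by
    intro e he
    rw [hDS, mem_inter, hD, mem_inter] at he
    have h1 := he.1.2
    have h2 := inc_subset_sym2 S he.2
    rw [← hTdef] at h2
    induction e using Sym2.ind with
    | _ u v =>
      rw [mk_mem_sym2] at h1 h2 ⊢
      exact ⟨mem_inter.2 ⟨h1.1, h2.1⟩, mem_inter.2 ⟨h1.2, h2.2⟩⟩
  have hDOsub : DO ⊆ (X \ S).sym2 := by
    intro e he
    rw [hDO, mem_sdiff, hD, mem_inter] at he
    have h1 := he.1.2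
    have h2 := mem_edges.1 (hcoreE he.1.1)
    have h3 := he.2
    rw [mem_inc] at h3
    induction e using Sym2.ind with
    | _ u v =>
      rw [mk_mem_sym2] at h1 ⊢
      have hu : u ∉ S := fun hu => h3 ⟨h2, u, hu, by simp⟩
      have hv : v ∉ S := fun hv => h3 ⟨h2, v, hv, by simp⟩
      exact ⟨mem_sdiff.2 ⟨h1.1, hu⟩, mem_sdiff.2 ⟨h1.2, hv⟩⟩
  have hDunion : D = DS ∪ DO := by
    ext f
    simp only [hDS, hDO, mem_union, mem_inter, mem_sdiff]
    tauto
  have hrkD : 2 * X.card ≤ rk D + 3 := by
    obtain ⟨v, hv⟩ := hXS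
    have h1 := hred s(v, v)
    have h2 := rk_mono (erase_subset s(v, v) D)
    omega
  have hrkU : rk D ≤ rk DS + rk DO := by
    conv_lhs => rw [hDunion]
    exact rk_union_le _ _
  -- `t ≥ 2`
  have ht2 : 2 ≤ (X ∩ T).card := by
    by_contra hlt
    by_cases hA : 2 ≤ (X ∩ (S ∪ T)).card
    · have hA' := rk_inside_le DS _ hA hDSsub
      by_cases hB : 2 ≤ (X \ S).card
      · have hB' := rk_inside_le DO _ hB hDOsub
        omega
      · have hB' := rk_inside_small DO _ (by omega) hDOsub
        omega
    · have hA' := rk_inside_small DS _ (by omega) hDSsub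
      by_cases hB : 2 ≤ (X \ S).card
      · have hB' := rk_inside_le DO _ hB hDOsub
        omega
      · omega
  have hXT : (X ∩ T).card ≤ T.card := card_le_card inter_subset_right
  have hT2 : T.card = 2 := by omega
  have hTX : T ⊆ X := by
    have h1 : X ∩ T = T := eq_of_subset_of_card_le inter_subset_right (by omega)
    rw [← h1]
    exact inter_subset_left
  have hmain : ∀ a b, T = {a, b} → ∀ e, 2 * (X ∩ S).card + 1 ≤
        rk (insert s(a, b) (DS.erase e)) := by
    intro a b hab e
    have hne : a ≠ b := by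
      rintro rfl
      rw [hab] at hT2
      simp at hT2
    have haX : a ∈ X ∧ a ∉ S := by
      have ha : a ∈ T := by rw [hab]; simp
      exact ⟨hTX ha, fun h => Finset.disjoint_left.1 hTS h ha⟩
    have hbX : b ∈ X ∧ b ∉ S := by
      have hb : b ∈ T := by rw [hab]; simp
      exact ⟨hTX hb, fun h => Finset.disjoint_left.1 hTS h hb⟩
    have h1 := rk_submod (insert s(a, b) (DS.erase e)) (insert s(a, b) DO)
    have h2 : rk (D.erase e) ≤ rk (insert s(a, b) (DS.erase e) ∪ insert s(a, b) DO) := by
      apply rk_mono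
      intro f hf
      rw [mem_erase] at hf
      have hf2 := hf.2
      rw [hDunion, mem_union] at hf2
      rcases hf2 with h | h
      · exact mem_union_left _ (mem_insert_of_mem (mem_erase.2 ⟨hf.1, h⟩))
      · exact mem_union_right _ (mem_insert_of_mem h)
    have h3 : rk {s(a, b)} ≤ rk (insert s(a, b) (DS.erase e) ∩ insert s(a, b) DO) := by
      apply rk_mono
      rw [singleton_subset_iff, mem_inter]
      exact ⟨mem_insert_self _ _, mem_insert_self _ _⟩
    rw [rk_singleton hne] at h3
    have h4' := hred e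
    have h5 : rk (insert s(a, b) DO) + 3 ≤ 2 * (X \ S).card := by
      apply rk_inside_le _ _ (by omega)
      apply insert_subset _ hDOsub
      rw [mk_mem_sym2]
      exact ⟨mem_sdiff.2 haX, mem_sdiff.2 hbX⟩
    omega
  refine ⟨hTX, hT2, ?_, hmain⟩
  by_contra hlt
  have hs : (X ∩ S).card = 1 := by omega
  obtain ⟨x, hx⟩ := card_eq_one.1 hs
  obtain ⟨a, b, hne, hab⟩ := card_eq_two.1 hT2
  have h1 := hmain a b hab s(x, a)
  have h2 : insert s(a, b) (DS.erase s(x, a)) ⊆ {s(a, b), s(x, b)} := by
    intro f hf
    rw [mem_insert, mem_erase] at hf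
    rcases hf with rfl | ⟨hf1, hf2⟩
    · simp
    · have hf3 := hf2
      rw [hDS, mem_inter] at hf3
      have hf4 := hDSsub hf2
      have hinc := hf3.2
      induction f using Sym2.ind with
      | _ u v =>
        rw [mem_inc_mk] at hinc
        rw [mk_mem_sym2] at hf4
        have key : ∀ u v : V, u ∈ X ∩ (S ∪ T) → v ∈ X ∩ (S ∪ T) → G.Adj u v → u ∈ S →
            s(u, v) ≠ s(x, a) → s(u, v) = s(x, b) := by
          intro u v hu hv hadj huS hne'
          have hux : u = x := by
            have : u ∈ X ∩ S := mem_inter.2 ⟨(mem_inter.1 hu).1, huS⟩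
            rw [hx, mem_singleton] at this
            exact this
          subst hux
          have hvS : v ∉ S := by
            intro hvS
            have : v ∈ X ∩ S := mem_inter.2 ⟨(mem_inter.1 hv).1, hvS⟩
            rw [hx, mem_singleton] at this
            exact hadj.ne this.symm
          have hvT : v ∈ T := by
            rcases mem_union.1 (mem_inter.1 hv).2 with h | h
            · exact absurd h hvS
            · exact h
          rw [hab, mem_insert, mem_singleton] at hvT
          rcases hvT with rfl | rfl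
          · exact absurd rfl hne'
          · rfl
        rw [mem_insert, mem_singleton]
        right
        rcases hinc.2 with hu | hv
        · exact key u v hf4.1 hf4.2 hinc.1 hu hf1
        · rw [Sym2.eq_swap]
          apply key v u hf4.2 hf4.1 hinc.1.symm hv
          rw [Sym2.eq_swap]
          exact hf1
  have h3 : rk (insert s(a, b) (DS.erase s(x, a))) ≤ 2 := by
    refine (rk_mono h2).trans ((rk_le_card _).trans ?_)
    exact card_le_two
  omega

end Pool.Agent.Helper36.Pin
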